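import Pool.Agent.helper33.GR2.Spec

/-! # Project g2, row g2:KFN (MP_af9036_an): the function `K = A_p (w - Z_p) τ` on a cell without zeros -/

set_option autoImplicit false

open Complex Metric Set Filter Topology MeasureTheory
open MPS (om)
open PPS (pre TT fd)
open XPS (Df er dens tau)
open Pool.Agent.helper16.Multibrot

noncomputable section

namespace GR

theorem KFN_Nu_diff (n : ℕ) (c : ℂ) (p q : ℕ) : Differentiable ℂ (Nu n c p q) := by
  unfold Nu
  refine Differentiable.fun_sum fun j _ => Differentiable.const_mul ?_ _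
  refine Differentiable.fun_finsetProd fun i _ => ?_
  fun_prop

theorem KFN_Nu_B (n : ℕ) (c : ℂ) (p q : ℕ) (x : ℂ) (hx : ∀ i ∈ Finset.Icc 1 p, x ≠ Z n c i) :
    Nu n c p q x = B n c p q x * ∏ i ∈ Finset.Icc 1 p, (x - Z n c i) := by
  unfold Nu B
  rw [Finset.sum_mul]
  refine Finset.sum_congr rfl fun j hj => ?_
  rw [← Finset.mul_prod_erase _ _ hj]
  have h1 : x - Z n c j ≠ 0 := sub_ne_zero.mpr (hx j hj)
  rw [← mul_assoc, div_mul_cancel₀ _ h1]

theorem KFN_Nu_Z (n : ℕ) (c : ℂ) (p q j : ℕ) (hj : j ∈ Finset.Icc 1 p) :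
    Nu n c p q (Z n c j) = xc n c p q j / A n c j * ∏ i ∈ (Finset.Icc 1 p).erase j, (Z n c j - Z n c i) := by
  unfold Nu
  rw [Finset.sum_eq_single j]
  · intro b hb hbj
    have h1 : ∏ i ∈ (Finset.Icc 1 p).erase b, (Z n c j - Z n c i) = 0 := by
      apply Finset.prod_eq_zero (Finset.mem_erase.mpr ⟨hbj.symm, hj⟩)
      exact sub_self _
    rw [h1, mul_zero]
  · intro h
    exact absurd hj h

theorem KFN (hDIS : DIS_stmt) (hTOP : TOP_stmt) (hNAT : NAT_stmt) : KFN_stmt := by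
  intro C n c p q G m hKQ hR hT hX hm hNu
  obtain ⟨-, -, -, -, -, -, -, -, -, -, hN⟩ := hNAT n c hR.hn
  obtain ⟨hR0, -, -, hRX, hA, -, -⟩ := hN p q hR
  obtain ⟨-, hinj, -, hd0, hdZ⟩ := hTOP n c p q G hR hT
  have hC : 1 ≤ C := hKQ.1
  have hC0 : 0 < C := by linarith
  have hr0 : 0 < R n c q / (8 * C) := by positivity
  have hrR : R n c q / (8 * C) ≤ R n c q := div_le_self hR0.le (by linarith)
  have hsub : ball (0 : ℂ) (R n c q / (8 * C)) ⊆ ball 0 (R n c q) := ball_subset_ball hrR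
  have hZp : Z n c p ∈ ball (0 : ℂ) (R n c q / (8 * C)) := by
    rw [mem_ball_zero_iff, lt_div_iff₀ (by positivity)]
    have h1 : 16 * C * ‖Z n c p‖ ≤ X n c p q * ‖Z n c p‖ :=
      mul_le_mul_of_nonneg_right hX (norm_nonneg _)
    rw [← hRX] at h1
    have h2 : 0 < ‖Z n c p‖ := norm_pos_iff.mpr (hR.ne0 p (by have := hR.q1; have := hR.qp; omega) le_rfl)
    nlinarith
  have hp1 : 1 ≤ p := by have := hR.q1; have := hR.qp; omega
  have hj : p - m ∈ Finset.Icc 1 p := Finset.mem_Icc.mpr ⟨by omega, by omega⟩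
  have hgd : DifferentiableOn ℂ (G m) (ball 0 (R n c q / (8 * C))) := (hT.diff m hm).mono hsub
  have hgZ : G m (Z n c p) = Z n c (p - m) := hT.val m hm
  have hA0 : ∀ j ∈ Finset.Icc 1 p, A n c j ≠ 0 := fun j hj => by
    rw [Finset.mem_Icc] at hj
    exact hA j hj.1 (by omega)
  have hAp : A n c p ≠ 0 := hA0 p (Finset.mem_Icc.mpr ⟨hp1, le_rfl⟩)
  have hAj : A n c (p - m) ≠ 0 := hA0 _ hj
  have hD : DifferentiableOn ℂ (dslope (G m) (Z n c p)) (ball 0 (R n c q / (8 * C))) :=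
    (Complex.differentiableOn_dslope (isOpen_ball.mem_nhds hZp)).mpr hgd
  have hDne : ∀ w ∈ ball (0 : ℂ) (R n c q / (8 * C)), w ≠ Z n c p →
      dslope (G m) (Z n c p) w = (G m w - Z n c (p - m)) / (w - Z n c p) := by
    intro w _ hne
    rw [dslope_of_ne _ hne, slope_def_field, hgZ]
  have hDZ : dslope (G m) (Z n c p) (Z n c p) = A n c (p - m) / A n c p := by
    rw [dslope_same, hdZ m hm]
  have hgj : ∀ w ∈ ball (0 : ℂ) (R n c q / (8 * C)), w ≠ Z n c p → G m w ≠ Z n c (p - m) := by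
    intro w hw hne h
    rw [← hgZ] at h
    exact hne (hinj m hm (hsub hw) (hsub hZp) h)
  have hD0 : ∀ w ∈ ball (0 : ℂ) (R n c q / (8 * C)), dslope (G m) (Z n c p) w ≠ 0 := by
    intro w hw
    by_cases hne : w = Z n c p
    · rw [hne, hDZ]
      exact div_ne_zero hAj hAp
    · rw [hDne w hw hne]
      exact div_ne_zero (sub_ne_zero.mpr (hgj w hw hne)) (sub_ne_zero.mpr hne)
  have hgi : ∀ w ∈ ball (0 : ℂ) (R n c q / (8 * C)), ∀ i ∈ (Finset.Icc 1 p).erase (p - m),
      G m w ≠ Z n c i := by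
    intro w hw i hi h
    rw [Finset.mem_erase, Finset.mem_Icc] at hi
    have h1 : G (p - i) (Z n c p) = Z n c i := by
      rw [hT.val (p - i) (by omega)]
      congr 1
      omega
    have h2 := hDIS C n c p q G hKQ hR hT hX m hm (p - i) (by omega) (by omega)
    refine (Set.disjoint_left.mp h2) (Set.mem_image_of_mem _ hw) ?_
    exact ⟨Z n c p, hZp, by rw [h1, h]⟩
  have hP0 : ∀ w ∈ ball (0 : ℂ) (R n c q / (8 * C)),
      ∏ i ∈ (Finset.Icc 1 p).erase (p - m), (G m w - Z n c i) ≠ 0 := by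
    intro w hw
    exact Finset.prod_ne_zero_iff.mpr fun i hi => sub_ne_zero.mpr (hgi w hw i hi)
  have hP : DifferentiableOn ℂ (fun w => ∏ i ∈ (Finset.Icc 1 p).erase (p - m), (G m w - Z n c i))
      (ball 0 (R n c q / (8 * C))) := by
    refine DifferentiableOn.fun_finsetProd fun i _ => ?_
    exact hgd.sub_const _
  have hdg : DifferentiableOn ℂ (deriv (G m)) (ball 0 (R n c q / (8 * C))) := hgd.deriv isOpen_ball
  have hNd : DifferentiableOn ℂ (fun w => Nu n c p q (G m w)) (ball 0 (R n c q / (8 * C))) :=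
    (KFN_Nu_diff n c p q).comp_differentiableOn hgd
  refine ⟨fun w => A n c p * deriv (G m) w ^ 2 * Nu n c p q (G m w) /
    (dslope (G m) (Z n c p) w * ∏ i ∈ (Finset.Icc 1 p).erase (p - m), (G m w - Z n c i)), ?_, ?_, ?_, ?_⟩
  · refine DifferentiableOn.div ?_ (hD.mul hP) fun w hw => mul_ne_zero (hD0 w hw) (hP0 w hw)
    exact ((hdg.pow 2).const_mul _).mul hNd
  · intro w hw
    exact div_ne_zero (mul_ne_zero (mul_ne_zero hAp (pow_ne_zero _ (hd0 m hm w (hsub hw)))) (hNu w hw))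
      (mul_ne_zero (hD0 w hw) (hP0 w hw))
  · have h1 := hP0 _ hZp
    rw [hgZ] at h1
    show A n c p * deriv (G m) (Z n c p) ^ 2 * Nu n c p q (G m (Z n c p)) /
      (dslope (G m) (Z n c p) (Z n c p) *
        ∏ i ∈ (Finset.Icc 1 p).erase (p - m), (G m (Z n c p) - Z n c i)) = _
    rw [hDZ, hdZ m hm, hgZ, KFN_Nu_Z n c p q (p - m) hj]
    generalize ∏ i ∈ (Finset.Icc 1 p).erase (p - m), (Z n c (p - m) - Z n c i) = Q at h1 ⊢
    field_simp
  · intro w hw hne
    show A n c p * deriv (G m) w ^ 2 * Nu n c p q (G m w) /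
      (dslope (G m) (Z n c p) w *
        ∏ i ∈ (Finset.Icc 1 p).erase (p - m), (G m w - Z n c i)) = _
    have h1 : ∀ i ∈ Finset.Icc 1 p, G m w ≠ Z n c i := by
      intro i hi
      by_cases h : i = p - m
      · rw [h]
        exact hgj w hw hne
      · exact hgi w hw i (Finset.mem_erase.mpr ⟨h, hi⟩)
    rw [KFN_Nu_B n c p q _ h1, hDne w hw hne, ← Finset.mul_prod_erase _ _ hj]
    have h2 := hP0 w hw
    have h3 : G m w - Z n c (p - m) ≠ 0 := sub_ne_zero.mpr (hgj w hw hne)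
    have h4 : w - Z n c p ≠ 0 := sub_ne_zero.mpr hne
    show _ = A n c p * (w - Z n c p) * (deriv (G m) w ^ 2 * B n c p q (G m w))
    generalize ∏ i ∈ (Finset.Icc 1 p).erase (p - m), (G m w - Z n c i) = Q at h2 ⊢
    field_simp

end GR
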